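import Pool.Agent.ASD.Stmts3
import Pool.Agent.Helper59_ASO.SSL

/-!
# Squad ASD, row SSD: the sums `SL` for local blocks with `Rw` (after `Helper59_ASO/SSL.lean`)
-/

open scoped BigOperators

set_option linter.unusedSectionVars false

noncomputable section

namespace Pool.Agent.PP.SD.H44

open Pool.Agent.Helper51_AWC Pool.Agent.Helper79_WRA Pool.Agent.PP Pool.Agent.PP.KF
open Pool.Agent.PP.K9 Pool.Agent.PP.K9.H97 Pool.Agent.PP.H75 Pool.Agent.PP.T3 Pool.Agent.PP.SO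
open Pool.Agent.PP.SO.H59 (finsum_mem_ite lin_pow lin_conj sup_top C_mono i_mem_C fc_out C_pos ep
  ncard_ite map_eq ux_inv)

section rws

variable {V₀ : Type} [CommGroup V₀] [Finite V₀] {E₀ : Subgroup (MulAut V₀)}

theorem rw_mono {W W' : Subgroup V₀} (hW : Rw E₀ W) (h : W ≤ W') : Rw E₀ W' :=
  ⟨fun h0 => hW.1 (le_bot_iff.1 (h0 ▸ h)), fun σ hσ hf => hW.2 σ hσ fun w hw => hf w (h hw)⟩

theorem rw_top {W : Subgroup V₀} (hW : Rw E₀ W) : Rw E₀ (⊤ : Subgroup V₀) := rw_mono hW le_top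

end rws

section blk

variable {ℓ : ℕ} [Fact ℓ.Prime] {M : Ideal (integralClosure ℤ ℂ)} [M.IsMaximal]
  {V₀ G : Type} [CommGroup V₀] [Finite V₀] [Group G] [Finite G] {E₀ : Subgroup (MulAut V₀)}
  {B : Bk (FF M) V₀ G}

theorem D_pos (hB : Sd ℓ M E₀ B) {W : Subgroup V₀} (hW : Rw E₀ W) : (0 : ℚ) < B.D W := by
  exact_mod_cast (hB.dg W hW).1

theorem S_sq (hB : Sd ℓ M E₀ B) {W : Subgroup V₀} (hW : Rw E₀ W) : (B.S W : ℚ) * B.S W = 1 := by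
  rcases hB.sg W hW with h | h <;> rw [h] <;> norm_num

theorem S_top (hB : Sd ℓ M E₀ B) (h2 : ℓ ≠ 2) (ht : Rw E₀ (⊤ : Subgroup V₀)) : B.S ⊤ = 1 := by
  rcases hB.sg ⊤ ht with h | h
  · exact h
  · exfalso
    obtain ⟨q, hq, hU⟩ := hB.un ⊤ ht
    have hD := (D_pos hB ht).ne'
    have hC := (C_pos (B := B) ⊤).ne'
    have h3 : B.U ⊤ = -1 := by
      unfold Bk.U
      rw [h]
      push_cast
      field_simp
    rw [h3] at hU
    have hp : ℓ.Prime := Fact.out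
    have hl0 : (ℓ : ℚ) ≠ 0 := by exact_mod_cast hp.ne_zero
    have h4 : q = ((-2 : ℤ) : ℚ) / ((ℓ : ℤ) : ℚ) := by
      push_cast
      rw [eq_div_iff hl0]
      linarith
    have h5 : ¬ ℓ ∣ q.den := hq
    apply h5
    have hcop : Nat.Coprime (Int.natAbs (-2)) (Int.natAbs (ℓ : ℤ)) := by
      change Nat.Coprime 2 ℓ
      exact (Nat.coprime_primes Nat.prime_two hp).2 (Ne.symm h2)
    have h6 := Rat.den_div_eq_of_coprime (a := -2) (b := (ℓ : ℤ)) (by exact_mod_cast hp.pos) hcop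
    rw [h4]
    have h7 : ((((-2 : ℤ) : ℚ) / ((ℓ : ℤ) : ℚ)).den : ℤ) = ℓ := h6
    have h8 : (((-2 : ℤ) : ℚ) / ((ℓ : ℤ) : ℚ)).den = ℓ := by exact_mod_cast h7
    rw [h8]

/-- the quotient of the degrees -/
theorem deg_quot (hc : Nat.card V₀ = ℓ ^ 2) (hB : Sd ℓ M E₀ B) {W : Subgroup V₀} (hW : Rw E₀ W)
    (x : V₀) : (B.D (W ⊔ Subgroup.zpowers x) : ℚ) * Nat.card (B.C W) =
      ep B W x * ux B.U W x * (Nat.card (B.C (W ⊔ Subgroup.zpowers x)) * B.D W) := by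
  unfold ep ux
  by_cases hx : x ∈ W
  · have h1 : W ⊔ Subgroup.zpowers x = W := sup_eq_left.2 ((Subgroup.zpowers_le).2 hx)
    rw [if_pos hx, if_pos hx, h1]
    ring
  · rw [if_neg hx, if_neg hx, sup_top hc hW.1 hx]
    have hD := (D_pos hB hW).ne'
    have hC := (C_pos (B := B) ⊤).ne'
    unfold Bk.U
    have h2 : (B.S W : ℚ) * ((B.S W : ℚ) * Nat.card (B.C W) * B.D ⊤ /
        (Nat.card (B.C ⊤) * B.D W)) * (Nat.card (B.C ⊤) * B.D W) =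
        ((B.S W : ℚ) * B.S W) * (Nat.card (B.C W) * B.D ⊤) := by
      field_simp
    rw [h2, S_sq hB hW]
    ring

theorem ux_ne (hB : Sd ℓ M E₀ B) {W : Subgroup V₀} (hW : Rw E₀ W) (x : V₀) :
    ux B.U W x ≠ 0 := by
  unfold ux
  split_ifs with h
  · exact one_ne_zero
  · have hS : (B.S W : ℚ) ≠ 0 := by
      intro h0
      have := S_sq hB hW
      rw [h0, mul_zero] at this
      exact zero_ne_one this
    have hT := rw_top hW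
    unfold Bk.U
    have h1 := (D_pos hB hW).ne'
    have h2 := (D_pos hB hT).ne'
    have h3 := (C_pos (B := B) W).ne'
    have h4 := (C_pos (B := B) ⊤).ne'
    exact div_ne_zero (mul_ne_zero (mul_ne_zero hS h3) h2) (mul_ne_zero h4 h1)

end blk

section blk2

variable {ℓ : ℕ} [Fact ℓ.Prime] {M : Ideal (integralClosure ℤ ℂ)} [M.IsMaximal]
  {V₀ G : Type} [CommGroup V₀] [Finite V₀] [Group G] [Finite G] {E₀ : Subgroup (MulAut V₀)}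
  {B : Bk (FF M) V₀ G}

/-- the signs -/
theorem eps_eq (hCJT : CjdStmt) (hM : (ℓ : integralClosure ℤ ℂ) ∈ M) (h2 : ℓ ≠ 2)
    (hFr : Fq ℓ V₀ E₀) (hB : Sd ℓ M E₀ B) {W₁ W₂ : Subgroup V₀} (h1 : Rw E₀ W₁) (h2' : Rw E₀ W₂)
    {τ : MulAut V₀} (hτ : τ ∈ E₀) {y : V₀}
    (hmap : (W₁ ⊔ Subgroup.zpowers y).map τ.toMonoidHom = W₂ ⊔ Subgroup.zpowers (τ y)) :
    ep B W₁ y * ep B W₂ (τ y) = B.S W₁ * B.S W₂ := by
  have hT := rw_top h1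
  have hmt : (⊤ : Subgroup V₀).map τ.toMonoidHom = ⊤ := by
    rw [← MonoidHom.range_eq_map]
    exact MonoidHom.range_eq_top.2 τ.surjective
  obtain ⟨t, ht, hti⟩ := hB.sur τ hτ
  have hcj := hCJT ℓ M hM h2 V₀ G E₀ hFr B hB.toSb τ hτ t ht hti
  unfold ep
  by_cases hy : y ∈ W₁
  · rw [if_pos hy, one_mul]
    have hw : W₁ ⊔ Subgroup.zpowers y = W₁ := sup_eq_left.2 ((Subgroup.zpowers_le).2 hy)
    rw [hw] at hmap
    by_cases hy' : τ y ∈ W₂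
    · rw [if_pos hy']
      have hw' : W₂ ⊔ Subgroup.zpowers (τ y) = W₂ := sup_eq_left.2 ((Subgroup.zpowers_le).2 hy')
      rw [hw'] at hmap
      have h3 := ((hcj W₁).2.2.2.2.2 hB h1).2.1
      rw [hmap] at h3
      rw [h3]
      exact (S_sq hB h1).symm
    · rw [if_neg hy']
      rw [sup_top hFr.cd h2'.1 hy', ← hmt] at hmap
      have h3 : W₁ = ⊤ := Subgroup.map_injective τ.injective hmap
      rw [h3, S_top hB h2 hT, Int.cast_one, one_mul]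
  · rw [if_neg hy]
    rw [sup_top hFr.cd h1.1 hy, hmt] at hmap
    by_cases hy' : τ y ∈ W₂
    · rw [if_pos hy']
      have hw' : W₂ ⊔ Subgroup.zpowers (τ y) = W₂ := sup_eq_left.2 ((Subgroup.zpowers_le).2 hy')
      rw [hw'] at hmap
      rw [← hmap, S_top hB h2 hT, Int.cast_one]
    · rw [if_neg hy']

end blk2

theorem ssd (hGPR : GpdStmt) (hNSV : NsdStmt) (hCJT : CjdStmt) : SsdStmt := by
  intro ℓ _ M _ hM h2 V₀ G _ _ _ _ E₀ hFr B hB n m hPE L h1 h2' χ hχ χ' hχ'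
  classical
  have iG := Fintype.ofFinite G
  have iV := Fintype.ofFinite V₀
  have iA := Fintype.ofFinite (MulAut V₀)
  obtain ⟨bij1, -, -, inv1, -⟩ := hNSV ℓ M hM h2 V₀ G E₀ hFr B hB (p1 L) h1
  obtain ⟨bij2, -, -, inv2, -⟩ := hNSV ℓ M hM h2 V₀ G E₀ hFr B hB (p2 L) h2'
  have hl1 : lam B (p1 L) χ ∈ lin V₀ := bij1.mapsTo hχ
  have hl2 : lam B (p2 L) χ' ∈ lin V₀ := bij2.mapsTo hχ'
  have hp : ℓ.Prime := Fact.out
  have hl0 : (ℓ : ℂ) ≠ 0 := by exact_mod_cast hp.ne_zero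
  obtain ⟨c₁, hc₁⟩ : ∃ c : ℂ, c = (Nat.card (B.C (p1 L)) : ℂ) := ⟨_, rfl⟩
  obtain ⟨c₂, hc₂⟩ : ∃ c : ℂ, c = (Nat.card (B.C (p2 L)) : ℂ) := ⟨_, rfl⟩
  obtain ⟨K₁, hK₁⟩ : ∃ c : ℂ, c = c₁ / (ℓ ^ 2 * B.D (p1 L)) := ⟨_, rfl⟩
  obtain ⟨K₂, hK₂⟩ : ∃ c : ℂ, c = c₂ / (ℓ ^ 2 * B.D (p2 L)) := ⟨_, rfl⟩
  obtain ⟨a, ha⟩ : ∃ a : V₀ → ℂ, a = fun x =>
    starRingEnd ℂ (lam B (p1 L) χ x) / ((ux B.U (p1 L) x : ℚ) : ℂ) := ⟨_, rfl⟩
  obtain ⟨b, hb⟩ : ∃ a : V₀ → ℂ, a = fun x =>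
    starRingEnd ℂ (lam B (p2 L) χ' x) / ((ux B.U (p2 L) x : ℚ) : ℂ) := ⟨_, rfl⟩
  have hX : ∀ h : G, χ h = K₁ * ∑ x, a x * fc B (p1 L) x h⁻¹ := by
    intro h
    by_cases hh : h ∈ B.C (p1 L)
    · rw [inv1 χ hχ h hh, finsum_eq_sum_of_fintype, hK₁, hc₁, ha]
    · rw [hχ.1 h hh, Finset.sum_eq_zero, mul_zero]
      intro x _
      rw [fc_out _ _ (fun h0 => hh (by simpa using (B.C (p1 L)).inv_mem h0)), mul_zero]
  have hX' : ∀ h : G, χ' h = K₂ * ∑ x, b x * fc B (p2 L) x h⁻¹ := by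
    intro h
    by_cases hh : h ∈ B.C (p2 L)
    · rw [inv2 χ' hχ' h hh, finsum_eq_sum_of_fintype, hK₂, hc₂, hb]
    · rw [hχ'.1 h hh, Finset.sum_eq_zero, mul_zero]
      intro x _
      rw [fc_out _ _ (fun h0 => hh (by simpa using (B.C (p2 L)).inv_mem h0)), mul_zero]
  -- the set of conditions with opposite exponents
  obtain ⟨Lm, hLm⟩ : ∃ Lm : Set (V₀ × V₀ × ℤ), Lm = {s | (s.1, s.2.1, -s.2.2) ∈ L} := ⟨_, rfl⟩
  have hp1 : p1 Lm = p1 L := by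
    unfold p1
    congr 1
    ext p
    constructor
    · rintro ⟨s, hs, rfl⟩
      rw [hLm] at hs
      exact ⟨_, hs, rfl⟩
    · rintro ⟨s, hs, rfl⟩
      refine ⟨(s.1, s.2.1, -s.2.2), ?_, rfl⟩
      rw [hLm]
      change (s.1, s.2.1, - -s.2.2) ∈ L
      rw [neg_neg]
      exact hs
  have hp2 : p2 Lm = p2 L := by
    unfold p2
    congr 1
    ext p
    constructor
    · rintro ⟨s, hs, rfl⟩
      rw [hLm] at hs
      exact ⟨_, hs, rfl⟩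
    · rintro ⟨s, hs, rfl⟩
      refine ⟨(s.1, s.2.1, -s.2.2), ?_, rfl⟩
      rw [hLm]
      change (s.1, s.2.1, - -s.2.2) ∈ L
      rw [neg_neg]
      exact hs
  obtain ⟨E, hE⟩ : ∃ E : V₀ → ℂ, E = fun x =>
    ℓ ^ 2 * B.D (p1 L ⊔ Subgroup.zpowers x) ^ 2 /
      (Nat.card (B.C (p1 L ⊔ Subgroup.zpowers x)) : ℂ) ^ 2 := ⟨_, rfl⟩
  -- the inner sum
  have hT : ∀ x x' : V₀, (∑ w : G × G, if (∀ s ∈ L, w.2 * B.i s.2.1 * w.2⁻¹ =
      B.i s.1 * (w.1 ^ m) ^ s.2.2) then fc B (p1 L) x w.1⁻¹ * fc B (p2 L) x' (w.2⁻¹ * w.1 * w.2)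
      else 0) = c₁ * c₂ * E x * ∑ τ : MulAut V₀,
        if (τ ∈ E₀ ∧ τ x = x'⁻¹ ∧ ∀ s ∈ Lm, τ (s.1 * x ^ s.2.2) = s.2.1) then (1 : ℂ) else 0 := by
    intro x x'
    have h3 := hGPR ℓ M hM h2 V₀ G E₀ hFr B hB n m hPE Lm (hp1 ▸ h1) (hp2 ▸ h2') x x'⁻¹
    rw [finsum_mem_ite, hp1, hp2, inv_inv, ncard_ite, ← hc₁, ← hc₂] at h3
    have hEx : E x = ℓ ^ 2 * B.D (p1 L ⊔ Subgroup.zpowers x) ^ 2 /
      (Nat.card (B.C (p1 L ⊔ Subgroup.zpowers x)) : ℂ) ^ 2 := by rw [hE]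
    rw [hEx]
    rw [← h3]
    rw [← Equiv.sum_comp (Equiv.prodCongr (Equiv.inv G) (Equiv.refl G))]
    refine Finset.sum_congr rfl fun w _ => ?_
    change (if (∀ s ∈ L, w.2 * B.i s.2.1 * w.2⁻¹ = B.i s.1 * (w.1⁻¹ ^ m) ^ s.2.2) then
      fc B (p1 L) x (w.1⁻¹)⁻¹ * fc B (p2 L) x' (w.2⁻¹ * w.1⁻¹ * w.2) else 0) = _
    rw [inv_inv]
    refine if_congr ?_ rfl rfl
    constructor
    · intro h s hs
      rw [hLm] at hs
      have := h _ hs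
      simp only at this
      rw [this, inv_pow, zpow_neg, inv_zpow, inv_inv]
    · intro h s hs
      have h4 : (s.1, s.2.1, -s.2.2) ∈ Lm := by
        rw [hLm]
        change (s.1, s.2.1, - -s.2.2) ∈ L
        rw [neg_neg]
        exact hs
      have := h _ h4
      simp only at this
      rw [this, inv_pow, inv_zpow, zpow_neg]
  -- the expansion
  have hS : SL B m L χ χ' = K₁ * K₂ * ∑ x, ∑ x', a x * b x' * (∑ w : G × G,
      if (∀ s ∈ L, w.2 * B.i s.2.1 * w.2⁻¹ = B.i s.1 * (w.1 ^ m) ^ s.2.2) then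
        fc B (p1 L) x w.1⁻¹ * fc B (p2 L) x' (w.2⁻¹ * w.1 * w.2) else 0) := by
    unfold SL
    rw [finsum_mem_ite]
    have h3 : ∀ w : G × G, (if (∀ s ∈ L, w.2 * B.i s.2.1 * w.2⁻¹ = B.i s.1 * (w.1 ^ m) ^ s.2.2) then
        χ w.1 * χ' (w.2⁻¹ * w.1⁻¹ * w.2) else 0) = ∑ x, ∑ x', K₁ * K₂ * (a x * b x' *
        (if (∀ s ∈ L, w.2 * B.i s.2.1 * w.2⁻¹ = B.i s.1 * (w.1 ^ m) ^ s.2.2) then
        fc B (p1 L) x w.1⁻¹ * fc B (p2 L) x' (w.2⁻¹ * w.1 * w.2) else 0)) := by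
      intro w
      by_cases hw : ∀ s ∈ L, w.2 * B.i s.2.1 * w.2⁻¹ = B.i s.1 * (w.1 ^ m) ^ s.2.2
      · rw [if_pos hw, hX, hX']
        simp only [if_pos hw]
        have e1 : (w.2⁻¹ * w.1⁻¹ * w.2)⁻¹ = w.2⁻¹ * w.1 * w.2 := by group
        rw [e1, mul_mul_mul_comm, Finset.sum_mul_sum, Finset.mul_sum]
        refine Finset.sum_congr rfl fun x _ => ?_
        rw [Finset.mul_sum]
        refine Finset.sum_congr rfl fun x' _ => ?_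
        ring
      · rw [if_neg hw]
        simp only [if_neg hw, mul_zero, Finset.sum_const_zero]
    rw [Finset.sum_congr rfl fun w _ => h3 w, Finset.sum_comm, Finset.mul_sum]
    refine Finset.sum_congr rfl fun x _ => ?_
    rw [Finset.sum_comm, Finset.mul_sum]
    refine Finset.sum_congr rfl fun x' _ => ?_
    rw [Finset.mul_sum, Finset.mul_sum]
  -- the pointwise identity
  have key : ∀ τ ∈ E₀, ∀ y : V₀, (∀ s ∈ L, τ (s.1 * y ^ s.2.2) = s.2.1) →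
      K₁ * K₂ * (a y⁻¹ * b (τ y⁻¹)⁻¹ * (c₁ * c₂ * E y⁻¹)) =
        c₁ * c₂ / ℓ ^ 2 * (B.S (p1 L) * B.S (p2 L)) *
          (lam B (p1 L) χ y * starRingEnd ℂ (lam B (p2 L) χ' (τ y))) := by
    intro τ hτ y hy
    have hmap := map_eq L τ y hy
    have hW : Rw E₀ (p1 L ⊔ Subgroup.zpowers y) := rw_mono h1 le_sup_left
    obtain ⟨t, ht, hti⟩ := hB.sur τ hτ
    have hcj := hCJT ℓ M hM h2 V₀ G E₀ hFr B hB.toSb τ hτ t ht hti (p1 L ⊔ Subgroup.zpowers y)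
    have hcc := hcj.2.2.1
    have hdd := (hcj.2.2.2.2.2 hB hW).1
    rw [hmap] at hcc hdd
    have hep := eps_eq hCJT hM h2 hFr hB h1 h2' hτ hmap
    have q1 := deg_quot hFr.cd hB h1 y
    have q2 := deg_quot hFr.cd hB h2' (τ y)
    rw [hcc, hdd] at q2
    have u1 := ux_ne hB h1 y
    have u2 := ux_ne hB h2' (τ y)
    have d1 := (D_pos hB h1).ne'
    have d2 := (D_pos hB h2').ne'
    have cw := (C_pos (B := B) (p1 L ⊔ Subgroup.zpowers y)).ne'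
    have e1 : (ep B (p1 L) y : ℚ) = (B.D (p1 L ⊔ Subgroup.zpowers y) : ℚ) *
        Nat.card (B.C (p1 L)) / (ux B.U (p1 L) y *
          (Nat.card (B.C (p1 L ⊔ Subgroup.zpowers y)) * B.D (p1 L))) := by
      rw [eq_div_iff (mul_ne_zero u1 (mul_ne_zero cw d1)), q1]
      ring
    have e2 : (ep B (p2 L) (τ y) : ℚ) = (B.D (p1 L ⊔ Subgroup.zpowers y) : ℚ) *
        Nat.card (B.C (p2 L)) / (ux B.U (p2 L) (τ y) *
          (Nat.card (B.C (p1 L ⊔ Subgroup.zpowers y)) * B.D (p2 L))) := by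
      rw [eq_div_iff (mul_ne_zero u2 (mul_ne_zero cw d2)), q2]
      ring
    have hepC : ((ep B (p1 L) y : ℚ) : ℂ) * ((ep B (p2 L) (τ y) : ℚ) : ℂ) =
        B.S (p1 L) * B.S (p2 L) := by
      exact_mod_cast congrArg (fun z : ℚ => (z : ℂ)) hep
    rw [← hepC, e1, e2]
    push_cast
    rw [← hc₁, ← hc₂]
    have ei : (τ y⁻¹)⁻¹ = τ y := by rw [map_inv, inv_inv]
    rw [ei, ha, hb, hE, hK₁, hK₂]
    simp only
    rw [lin_conj hl1, ux_inv, Subgroup.zpowers_inv]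
    have u1' : ((ux B.U (p1 L) y : ℚ) : ℂ) ≠ 0 := by exact_mod_cast u1
    have u2' : ((ux B.U (p2 L) (τ y) : ℚ) : ℂ) ≠ 0 := by exact_mod_cast u2
    have d1' : (B.D (p1 L) : ℂ) ≠ 0 := by exact_mod_cast d1
    have d2' : (B.D (p2 L) : ℂ) ≠ 0 := by exact_mod_cast d2
    have cw' : (Nat.card (B.C (p1 L ⊔ Subgroup.zpowers y)) : ℂ) ≠ 0 := by exact_mod_cast cw
    field_simp
  -- assembly
  have hR : (∑ᶠ w ∈ {w : MulAut V₀ × V₀ | w.1 ∈ E₀ ∧ ∀ s ∈ L, w.1 (s.1 * w.2 ^ s.2.2) = s.2.1},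
      lam B (p1 L) χ w.2 * starRingEnd ℂ (lam B (p2 L) χ' (w.1 w.2))) =
      ∑ y : V₀, ∑ τ : MulAut V₀, if (τ ∈ E₀ ∧ ∀ s ∈ L, τ (s.1 * y ^ s.2.2) = s.2.1) then
      lam B (p1 L) χ y * starRingEnd ℂ (lam B (p2 L) χ' (τ y)) else 0 := by
    rw [finsum_mem_ite, Fintype.sum_prod_type, Finset.sum_comm]
  rw [hS]
  simp only [hT]
  rw [hR, ← hc₁, ← hc₂, Finset.mul_sum, Finset.mul_sum, ← Equiv.sum_comp (Equiv.inv V₀)]
  refine Finset.sum_congr rfl fun y _ => ?_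
  change K₁ * K₂ * ∑ x', a y⁻¹ * b x' * (c₁ * c₂ * E y⁻¹ * ∑ τ : MulAut V₀,
        if (τ ∈ E₀ ∧ τ y⁻¹ = x'⁻¹ ∧ ∀ s ∈ Lm, τ (s.1 * y⁻¹ ^ s.2.2) = s.2.1) then (1 : ℂ) else 0) = _
  have h5 : ∀ x' : V₀, a y⁻¹ * b x' * (c₁ * c₂ * E y⁻¹ * ∑ τ : MulAut V₀,
        if (τ ∈ E₀ ∧ τ y⁻¹ = x'⁻¹ ∧ ∀ s ∈ Lm, τ (s.1 * y⁻¹ ^ s.2.2) = s.2.1) then (1 : ℂ) else 0) =
      ∑ τ : MulAut V₀, if x' = (τ y⁻¹)⁻¹ then
        (if (τ ∈ E₀ ∧ ∀ s ∈ Lm, τ (s.1 * y⁻¹ ^ s.2.2) = s.2.1) then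
          a y⁻¹ * b x' * (c₁ * c₂ * E y⁻¹) else 0) else 0 := by
    intro x'
    rw [Finset.mul_sum, Finset.mul_sum]
    refine Finset.sum_congr rfl fun τ _ => ?_
    by_cases hx : x' = (τ y⁻¹)⁻¹
    · have hx' : τ y⁻¹ = x'⁻¹ := by rw [hx, inv_inv]
      rw [if_pos hx]
      by_cases hc : τ ∈ E₀ ∧ ∀ s ∈ Lm, τ (s.1 * y⁻¹ ^ s.2.2) = s.2.1
      · rw [if_pos hc, if_pos ⟨hc.1, hx', hc.2⟩, mul_one]
      · rw [if_neg hc, if_neg (fun h0 => hc ⟨h0.1, h0.2.2⟩), mul_zero, mul_zero]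
    · rw [if_neg hx, if_neg (fun h0 => hx (by rw [h0.2.1, inv_inv])), mul_zero, mul_zero]
  rw [Finset.sum_congr rfl fun x' _ => h5 x', Finset.sum_comm, Finset.mul_sum, Finset.mul_sum]
  refine Finset.sum_congr rfl fun τ _ => ?_
  rw [Finset.sum_ite_eq' Finset.univ, if_pos (Finset.mem_univ _)]
  have h6 : (∀ s ∈ Lm, τ (s.1 * y⁻¹ ^ s.2.2) = s.2.1) ↔ ∀ s ∈ L, τ (s.1 * y ^ s.2.2) = s.2.1 := by
    constructor
    · intro h s hs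
      have h4 : (s.1, s.2.1, -s.2.2) ∈ Lm := by
        rw [hLm]
        change (s.1, s.2.1, - -s.2.2) ∈ L
        rw [neg_neg]
        exact hs
      have := h _ h4
      simp only at this
      rw [inv_zpow, zpow_neg, inv_inv] at this
      exact this
    · intro h s hs
      rw [hLm] at hs
      have := h _ hs
      simp only at this
      rw [zpow_neg] at this
      rw [inv_zpow]
      exact this
  by_cases hc : τ ∈ E₀ ∧ ∀ s ∈ L, τ (s.1 * y ^ s.2.2) = s.2.1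
  · rw [if_pos hc, if_pos ⟨hc.1, h6.2 hc.2⟩]
    exact key τ hc.1 y hc.2
  · rw [if_neg hc, if_neg (fun h0 => hc ⟨h0.1, h6.1 h0.2⟩), mul_zero, mul_zero]

end Pool.Agent.PP.SD.H44
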