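import Pool.Agent.ASD.Stmts3
import Pool.Agent.Helper10_ASO.W12B

/-!
# Squad ASD, row W2B: the value of `HK` for `Rw E₀ (aL κ L)` (after `Helper10_ASO/W12B.lean`)
-/

open scoped BigOperators

set_option linter.unusedSectionVars false

noncomputable section

namespace Pool.Agent.PP.SD.H44W

open Pool.Agent.Helper51_AWC Pool.Agent.Helper79_WRA Pool.Agent.PP Pool.Agent.PP.KF
open Pool.Agent.PP.K9 Pool.Agent.PP.K9.H97 Pool.Agent.PP.H75 Pool.Agent.PP.T3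
open Pool.Agent.PP.SO
open Pool.Agent.PP.SO.H10W (lin_sum lin_conj irr_avg ch_star ch_avg ch_fin ncard_sum avg ec em)

attribute [local instance] Ideal.Quotient.field

/-- Row W2B. -/
theorem w2b (hS : SsdStmt) (hN : NsdStmt) : W2bStmt := by
  classical
  intro ℓ _ M _ hM hℓ V₀ G _ _ _ _ E₀ hF B hB n m hPE κ L hA
  have iG : Fintype G := Fintype.ofFinite G
  have iV : Fintype V₀ := Fintype.ofFinite _
  obtain ⟨A, hAd⟩ : ∃ A, A = aL κ L := ⟨_, rfl⟩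
  rw [← hAd] at hA ⊢
  have iH : Fintype (B.C A) := Fintype.ofFinite (B.C A)
  obtain ⟨nsv1, nsv2, -, nsv4, -, -, -⟩ := hN ℓ M hM hℓ V₀ G E₀ hF B hB A hA
  -- the elements `a`
  let a : SO.SS n V₀ → V₀ := fun s => κ ^ (s.2.1 : ℕ) * s.2.2.1
  have hAcl : A = Subgroup.closure (a '' L) := by
    rw [hAd]
    unfold aL
    congr 1
  have hHmem : ∀ x : G, x ∈ B.C A ↔ ∀ s ∈ L, B.i (a s) * x = x * B.i (a s) := by
    intro x
    have h1 : B.C A = Subgroup.centralizer (B.i '' (a '' L)) := by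
      unfold Bk.C
      rw [hAcl, MonoidHom.map_closure, Subgroup.centralizer_closure]
    rw [h1, Subgroup.mem_centralizer_iff]
    constructor
    · intro h s hs
      exact h _ ⟨a s, ⟨s, hs, rfl⟩, rfl⟩
    · rintro h _ ⟨_, ⟨s, hs, rfl⟩, rfl⟩
      exact h s hs
  have haz : ∀ z ∈ B.C A, ∀ s ∈ L, B.i (a s) * z = z * B.i (a s) := fun z hz => (hHmem z).1 hz
  -- the set `S`
  let S : Set (G × G) := {w | ∀ s ∈ L, B.i (a s) * w.1 = w.1 * B.i (a s) ∧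
    w.2⁻¹ * B.i (a s) * w.2 = B.i (a s) * (w.1 ^ m) ^ (s.1 : ℕ)}
  have hSx : ∀ w ∈ S, w.1 ∈ B.C A := fun w hw => (hHmem _).2 fun s hs => (hw s hs).1
  -- `y x y⁻¹ ∈ H`
  have hSy : ∀ w ∈ S, w.2 * w.1 * w.2⁻¹ ∈ B.C A := by
    intro w hw
    rw [hHmem]
    intro s hs
    obtain ⟨h1, h2⟩ := hw s hs
    have h3 : w.1 * (w.2⁻¹ * B.i (a s) * w.2) = (w.2⁻¹ * B.i (a s) * w.2) * w.1 := by
      rw [h2, ← mul_assoc, ← h1, mul_assoc, mul_assoc]
      congr 1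
      exact (((Commute.refl w.1).pow_right m).pow_right _).eq
    have h4 : B.i (a s) * (w.2 * w.1 * w.2⁻¹) =
        w.2 * ((w.2⁻¹ * B.i (a s) * w.2) * w.1) * w.2⁻¹ := by group
    have h5 : w.2 * w.1 * w.2⁻¹ * B.i (a s) =
        w.2 * (w.1 * (w.2⁻¹ * B.i (a s) * w.2)) * w.2⁻¹ := by group
    rw [h4, h5, h3]
  have hSk : ∀ w ∈ S, SO.kap w.1 w.2 ∈ B.C A := by
    intro w hw
    have h1 := (B.C A).mul_mem (hSx w hw) ((B.C A).inv_mem (hSy w hw))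
    have e : w.1 * (w.2 * w.1 * w.2⁻¹)⁻¹ = SO.kap w.1 w.2 := by
      unfold SO.kap
      group
    rwa [e] at h1
  -- invariance under `ec`
  have hSc1 : ∀ (z : B.C A) w, w ∈ S → ec (B.C A) z w ∈ S := by
    intro z w hw s hs
    obtain ⟨h1, h2⟩ := hw s hs
    have h3 := haz z z.2 s hs
    have h3' : B.i (a s) * (z : G)⁻¹ = (z : G)⁻¹ * B.i (a s) := by
      rw [mul_inv_eq_iff_eq_mul, mul_assoc, h3]
      group
    constructor
    · show B.i (a s) * ((z : G)⁻¹ * w.1 * z) = (z : G)⁻¹ * w.1 * z * B.i (a s)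
      calc B.i (a s) * ((z : G)⁻¹ * w.1 * z) = (B.i (a s) * (z : G)⁻¹) * w.1 * z := by group
        _ = (z : G)⁻¹ * (B.i (a s) * w.1) * z := by rw [h3']; group
        _ = (z : G)⁻¹ * w.1 * (B.i (a s) * z) := by rw [h1]; group
        _ = (z : G)⁻¹ * w.1 * z * B.i (a s) := by rw [h3]; group
    · show ((z : G)⁻¹ * w.2 * z)⁻¹ * B.i (a s) * ((z : G)⁻¹ * w.2 * z) =
        B.i (a s) * (((z : G)⁻¹ * w.1 * z) ^ m) ^ (s.1 : ℕ)
      have e1 : (((z : G)⁻¹ * w.1 * z) ^ m) ^ (s.1 : ℕ) = (z : G)⁻¹ * (w.1 ^ m) ^ (s.1 : ℕ) * z := by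
        have e2 := conj_pow (i := m) (a := (z : G)⁻¹) (b := w.1)
        rw [inv_inv] at e2
        rw [e2]
        have e3 := conj_pow (i := (s.1 : ℕ)) (a := (z : G)⁻¹) (b := w.1 ^ m)
        rw [inv_inv] at e3
        exact e3
      rw [e1]
      calc ((z : G)⁻¹ * w.2 * z)⁻¹ * B.i (a s) * ((z : G)⁻¹ * w.2 * z) =
          (z : G)⁻¹ * (w.2⁻¹ * ((z : G) * (B.i (a s) * (z : G)⁻¹)) * w.2) * z := by group
        _ = (z : G)⁻¹ * (w.2⁻¹ * B.i (a s) * w.2) * z := by rw [h3']; group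
        _ = ((z : G)⁻¹ * B.i (a s)) * (w.1 ^ m) ^ (s.1 : ℕ) * z := by rw [h2]; group
        _ = B.i (a s) * ((z : G)⁻¹ * (w.1 ^ m) ^ (s.1 : ℕ) * z) := by rw [← h3']; group
  have hSc : ∀ (z : B.C A) w, ec (B.C A) z w ∈ S ↔ w ∈ S := by
    intro z w
    refine ⟨fun h => ?_, hSc1 z w⟩
    have h1 := hSc1 z⁻¹ _ h
    have e : ec (B.C A) z⁻¹ (ec (B.C A) z w) = w := by
      refine Prod.ext ?_ ?_
      · show ((z⁻¹ : B.C A) : G)⁻¹ * ((z : G)⁻¹ * w.1 * z) * ((z⁻¹ : B.C A) : G) = w.1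
        rw [Subgroup.coe_inv]
        group
      · show ((z⁻¹ : B.C A) : G)⁻¹ * ((z : G)⁻¹ * w.2 * z) * ((z⁻¹ : B.C A) : G) = w.2
        rw [Subgroup.coe_inv]
        group
    rwa [e] at h1
  -- invariance under `em`
  have hSm : ∀ (z : B.C A) w, em (B.C A) z w ∈ S ↔ w ∈ S := by
    intro z w
    have h0 : ∀ s ∈ L, ((z : G) * w.2)⁻¹ * B.i (a s) * ((z : G) * w.2) =
        w.2⁻¹ * B.i (a s) * w.2 := by
      intro s hs
      have h3 := haz z z.2 s hs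
      calc ((z : G) * w.2)⁻¹ * B.i (a s) * ((z : G) * w.2) =
          w.2⁻¹ * ((z : G)⁻¹ * (B.i (a s) * z)) * w.2 := by group
        _ = w.2⁻¹ * B.i (a s) * w.2 := by rw [h3]; group
    constructor
    · intro h s hs
      obtain ⟨h1, h2⟩ := h s hs
      refine ⟨h1, ?_⟩
      rw [← h0 s hs]
      exact h2
    · intro h s hs
      obtain ⟨h1, h2⟩ := h s hs
      refine ⟨h1, ?_⟩
      show ((z : G) * w.2)⁻¹ * B.i (a s) * ((z : G) * w.2) = _
      rw [h0 s hs]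
      exact h2
  have hHc : (Fintype.card (B.C A) : ℂ) ≠ 0 := by
    exact_mod_cast Fintype.card_ne_zero
  -- step 1 to 3
  have s1 : HK B m κ L = (Fintype.card (B.C A) : ℂ)⁻¹ *
      ∑ w, (if w ∈ S then fc B A κ (SO.kap w.1 w.2) else 0) := by
    obtain ⟨K, hK⟩ : ∃ K, K = A ⊔ Subgroup.zpowers κ := ⟨_, rfl⟩
    have e1 : HK B m κ L = (Nat.card (B.C K) : ℂ)⁻¹ *
        ∑ w : G × G, (if w ∈ S then bh B K ((B.i κ)⁻¹ * SO.kap w.1 w.2) else 0) := by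
      unfold HK
      rw [← hAd, ← hK, finsum_eq_sum_of_fintype]
      congr 1
      have e2 : ∀ t : G, (({w : G × G | SO.kap w.1 w.2 = B.i κ * t ∧ ∀ s ∈ L,
          B.i (κ ^ (s.2.1 : ℕ) * s.2.2.1) * w.1 = w.1 * B.i (κ ^ (s.2.1 : ℕ) * s.2.2.1) ∧
          w.2⁻¹ * B.i (κ ^ (s.2.1 : ℕ) * s.2.2.1) * w.2 =
            B.i (κ ^ (s.2.1 : ℕ) * s.2.2.1) * (w.1 ^ m) ^ (s.1 : ℕ)}.ncard : ℕ) : ℂ) =
          ∑ w : G × G, if SO.kap w.1 w.2 = B.i κ * t ∧ w ∈ S then (1 : ℂ) else 0 := fun t =>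
        ncard_sum (fun w : G × G => SO.kap w.1 w.2 = B.i κ * t ∧ w ∈ S)
      simp only [e2, Finset.mul_sum]
      rw [Finset.sum_comm]
      refine Finset.sum_congr rfl fun w _ => ?_
      by_cases hw : w ∈ S
      · rw [if_pos hw, Finset.sum_eq_single ((B.i κ)⁻¹ * SO.kap w.1 w.2)]
        · rw [if_pos ⟨by group, hw⟩, mul_one]
        · intro t _ ht
          rw [if_neg, mul_zero]
          rintro ⟨h1, -⟩
          apply ht
          rw [h1]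
          group
        · intro h
          exact absurd (Finset.mem_univ _) h
      · rw [if_neg hw]
        refine Finset.sum_eq_zero fun t _ => ?_
        rw [if_neg (fun h => hw h.2), mul_zero]
    have e3 := avg (B.C A) S (ec (B.C A)) hSc (fun w => bh B K ((B.i κ)⁻¹ * SO.kap w.1 w.2))
    have e4 : ∑ w, (if w ∈ S then fc B A κ (SO.kap w.1 w.2) else 0) = (Nat.card (B.C K) : ℂ)⁻¹ *
        ∑ w, (if w ∈ S then ∑ z : B.C A, bh B K ((B.i κ)⁻¹ *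
          SO.kap (ec (B.C A) z w).1 (ec (B.C A) z w).2) else 0) := by
      rw [Finset.mul_sum]
      refine Finset.sum_congr rfl fun w _ => ?_
      split_ifs
      · unfold fc
        rw [← hK, finsum_eq_sum_of_fintype]
        congr 1
        refine Finset.sum_congr rfl fun z _ => ?_
        congr 2
        show (z : G)⁻¹ * SO.kap w.1 w.2 * z = SO.kap ((z : G)⁻¹ * w.1 * z) ((z : G)⁻¹ * w.2 * z)
        unfold SO.kap
        group
      · rw [mul_zero]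
    rw [e4, ← e3, e1]
    field_simp
  -- constants
  have hDt := hB.dg A hA
  have hD0 : ((B.D A : ℕ) : ℂ) ≠ 0 := by exact_mod_cast hDt.1.ne'
  have hl0 : ((ℓ : ℕ) : ℂ) ≠ 0 := by
    exact_mod_cast (Fact.out : ℓ.Prime).ne_zero
  have hu0 : ((ux B.U A κ : ℚ) : ℂ) ≠ 0 := by
    have htop : Rw E₀ (⊤ : Subgroup V₀) :=
      ⟨fun h => hA.1 (le_bot_iff.1 (h ▸ le_top)),
        fun σ hσ hf => hA.2 σ hσ fun w _ => hf w (Subgroup.mem_top w)⟩
    have h1 : ux B.U A κ ≠ 0 := by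
      unfold ux
      split_ifs
      · exact one_ne_zero
      · unfold Bk.U
        have h2 : ((B.S A : ℤ) : ℚ) ≠ 0 := by
          rcases hB.sg A hA with h | h
          · rw [h]; norm_num
          · rw [h]; norm_num
        have h3 : ((B.D A : ℕ) : ℚ) ≠ 0 := by exact_mod_cast hDt.1.ne'
        have h4 : ((B.D ⊤ : ℕ) : ℚ) ≠ 0 := by exact_mod_cast (hB.dg ⊤ htop).1.ne'
        have h5 : ((Nat.card (B.C A) : ℕ) : ℚ) ≠ 0 := by
          have : 0 < Nat.card (B.C A) := Nat.card_pos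
          exact_mod_cast this.ne'
        have h6 : ((Nat.card (B.C ⊤) : ℕ) : ℚ) ≠ 0 := by
          have : 0 < Nat.card (B.C ⊤) := Nat.card_pos
          exact_mod_cast this.ne'
        exact div_ne_zero (mul_ne_zero (mul_ne_zero h2 h5) h4) (mul_ne_zero h6 h3)
    exact_mod_cast h1
  obtain ⟨u, hu⟩ : ∃ u : ℂ, u = ((ux B.U A κ : ℚ) : ℂ) := ⟨_, rfl⟩
  rw [← hu] at hu0
  have hNc : (Nat.card (B.C A) : ℂ) = Fintype.card (B.C A) := by rw [Nat.card_eq_fintype_card]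
  -- the characters
  have hfin := ch_fin B A
  obtain ⟨X, hX⟩ : ∃ X, X = hfin.toFinset := ⟨_, rfl⟩
  have hXm : ∀ χ, χ ∈ X ↔ χ ∈ Ch B A := by
    intro χ
    rw [hX, Set.Finite.mem_toFinset]
  have hlfin : (lin V₀).Finite := by
    rw [← nsv1.image_eq]
    exact hfin.image _
  have hlam : ∀ χ ∈ X, lam B A χ ∈ lin V₀ := fun χ hχ => nsv1.mapsTo ((hXm χ).1 hχ)
  have horth : ∀ v : V₀, ∑ χ ∈ X, lam B A χ v = if v = 1 then ((ℓ : ℕ) : ℂ) ^ 2 else 0 := by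
    intro v
    have h1 := lin_sum hlfin v
    rw [hF.cd] at h1
    push_cast at h1
    rw [← h1]
    refine Finset.sum_bij (fun χ _ => lam B A χ) ?_ ?_ ?_ ?_
    · intro χ hχ
      rw [Set.Finite.mem_toFinset]
      exact hlam χ hχ
    · intro χ hχ ψ hψ h
      exact nsv1.injOn ((hXm χ).1 hχ) ((hXm ψ).1 hψ) h
    · intro f hf
      rw [Set.Finite.mem_toFinset] at hf
      obtain ⟨χ, hχ, h⟩ := nsv1.surjOn hf
      exact ⟨χ, (hXm χ).2 hχ, h⟩
    · intro χ _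
      rfl
  -- step 4
  have s4 : ∀ g ∈ B.C A, fc B A κ g = ((B.D A : ℕ) : ℂ) / Fintype.card (B.C A) * u *
      ∑ χ ∈ X, lam B A χ κ * χ g⁻¹ := by
    intro g hg
    have h1 : ∀ χ ∈ X, χ g⁻¹ = (Fintype.card (B.C A) : ℂ) / (((ℓ : ℕ) : ℂ) ^ 2 * B.D A) *
        ∑ x : V₀, starRingEnd ℂ (lam B A χ x) / (ux B.U A x : ℚ) * fc B A x g := by
      intro χ hχ
      have h2 := nsv4 χ ((hXm χ).1 hχ) g⁻¹ ((B.C A).inv_mem hg)
      rw [inv_inv, hNc, finsum_eq_sum_of_fintype] at h2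
      exact h2
    have h2 : ∑ χ ∈ X, lam B A χ κ * χ g⁻¹ = (Fintype.card (B.C A) : ℂ) /
        (((ℓ : ℕ) : ℂ) ^ 2 * B.D A) *
        ∑ x : V₀, (∑ χ ∈ X, lam B A χ (κ * x⁻¹)) / (ux B.U A x : ℚ) * fc B A x g := by
      rw [Finset.sum_congr rfl (fun χ hχ => by rw [h1 χ hχ])]
      simp only [Finset.mul_sum, Finset.sum_div, Finset.sum_mul]
      rw [Finset.sum_comm]
      refine Finset.sum_congr rfl fun x _ => Finset.sum_congr rfl fun χ hχ => ?_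
      rw [lin_conj (hlam χ hχ), (hlam χ hχ).2]
      ring
    rw [h2]
    simp only [horth]
    rw [Finset.sum_eq_single κ]
    · rw [mul_inv_cancel, if_pos rfl, ← hu]
      field_simp
    · intro x _ hx
      rw [if_neg (fun h => hx (mul_inv_eq_one.1 h).symm), zero_div, zero_mul]
    · intro h
      exact absurd (Finset.mem_univ _) h
  -- step 5
  have hone : ∀ χ ∈ X, χ 1 = ((B.D A : ℕ) : ℂ) := by
    intro χ hχ
    have h1 := hDt.2 _ ((hXm χ).1 hχ).2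
    exact h1
  have s5 : ∀ χ ∈ X, ∑ w, (if w ∈ S then χ (SO.kap w.1 w.2)⁻¹ else 0) =
      (((B.D A : ℕ) : ℂ))⁻¹ *
        ∑ w, (if w ∈ S then χ (w.2 * w.1 * w.2⁻¹) * χ w.1⁻¹ else 0) := by
    intro χ hχ
    have e1 := avg (B.C A) S (em (B.C A)) hSm (fun w => χ (SO.kap w.1 w.2)⁻¹)
    have e2 : ∑ w, (if w ∈ S then ∑ z : B.C A,
        χ (SO.kap (em (B.C A) z w).1 (em (B.C A) z w).2)⁻¹ else 0) =
        ∑ w, (if w ∈ S then (Fintype.card (B.C A) : ℂ) *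
          (χ (w.2 * w.1 * w.2⁻¹) * χ w.1⁻¹ / ((B.D A : ℕ) : ℂ)) else 0) := by
      refine Finset.sum_congr rfl fun w _ => ?_
      by_cases hw : w ∈ S
      · rw [if_pos hw, if_pos hw]
        have h1 := ch_avg ((hXm χ).1 hχ) (hSy w hw) ((B.C A).inv_mem (hSx w hw))
        rw [hone χ hχ] at h1
        rw [← h1]
        refine Finset.sum_congr rfl fun z _ => ?_
        congr 1
        show (SO.kap w.1 ((z : G) * w.2))⁻¹ = (z : G) * (w.2 * w.1 * w.2⁻¹) * (z : G)⁻¹ * w.1⁻¹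
        unfold SO.kap
        group
      · rw [if_neg hw, if_neg hw]
    rw [e2] at e1
    have e3 : ∑ w, (if w ∈ S then (Fintype.card (B.C A) : ℂ) *
          (χ (w.2 * w.1 * w.2⁻¹) * χ w.1⁻¹ / ((B.D A : ℕ) : ℂ)) else 0) =
        (Fintype.card (B.C A) : ℂ) * ((((B.D A : ℕ) : ℂ))⁻¹ *
        ∑ w, (if w ∈ S then χ (w.2 * w.1 * w.2⁻¹) * χ w.1⁻¹ else 0)) := by
      rw [Finset.mul_sum, Finset.mul_sum]
      refine Finset.sum_congr rfl fun w _ => ?_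
      split_ifs
      · ring
      · simp
    rw [e3] at e1
    exact mul_left_cancel₀ hHc e1
  -- step 6
  let LA : Set (V₀ × V₀ × ℤ) := {t | ∃ s ∈ L, t = (a s, a s, ((s.1 : ℕ) : ℤ))}
  have s6 : ∀ χ ∈ X, starRingEnd ℂ (SL B m LA χ χ) =
      ∑ w, (if w ∈ S then χ (w.2 * w.1 * w.2⁻¹) * χ w.1⁻¹ else 0) := by
    intro χ hχ
    have hc := (hXm χ).1 hχ
    unfold SL
    rw [finsum_mem_def, finsum_eq_sum_of_fintype, map_sum]
    rw [← Equiv.sum_comp ((Equiv.refl G).prodCongr (Equiv.inv G))]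
    refine Finset.sum_congr rfl fun w _ => ?_
    show starRingEnd ℂ (Set.indicator _ _ (w.1, w.2⁻¹)) = _
    have hiff : ((w.1, w.2⁻¹) ∈ {w : G × G | ∀ s ∈ LA, w.2 * B.i s.2.1 * w.2⁻¹ =
        B.i s.1 * (w.1 ^ m) ^ s.2.2}) ↔ ∀ s ∈ L, w.2⁻¹ * B.i (a s) * w.2 =
          B.i (a s) * (w.1 ^ m) ^ (s.1 : ℕ) := by
      constructor
      · intro h s hs
        have h1 := h (a s, a s, ((s.1 : ℕ) : ℤ)) ⟨s, hs, rfl⟩
        have h2 : w.2⁻¹ * B.i (a s) * w.2⁻¹⁻¹ = B.i (a s) * (w.1 ^ m) ^ ((s.1 : ℕ) : ℤ) := h1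
        rwa [inv_inv, zpow_natCast] at h2
      · rintro h _ ⟨s, hs, rfl⟩
        show w.2⁻¹ * B.i (a s) * w.2⁻¹⁻¹ = B.i (a s) * (w.1 ^ m) ^ ((s.1 : ℕ) : ℤ)
        rw [inv_inv, zpow_natCast]
        exact h s hs
    rw [Set.indicator_apply]
    by_cases h1 : w ∈ S
    · have h2 := hiff.2 fun s hs => (h1 s hs).2
      rw [if_pos h2, if_pos h1, map_mul, ch_star hc, ch_star hc, mul_comm]
      congr 2
      show (w.2⁻¹⁻¹ * w.1⁻¹ * w.2⁻¹)⁻¹ = w.2 * w.1 * w.2⁻¹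
      group
    · rw [if_neg h1]
      by_cases h2 : (w.1, w.2⁻¹) ∈ {w : G × G | ∀ s ∈ LA, w.2 * B.i s.2.1 * w.2⁻¹ =
        B.i s.1 * (w.1 ^ m) ^ s.2.2}
      · rw [if_pos h2]
        have h3 : w.1 ∉ B.C A := by
          intro h4
          exact h1 fun s hs => ⟨(hHmem _).1 h4 s hs, hiff.1 h2 s hs⟩
        show starRingEnd ℂ (χ w.1 * _) = 0
        rw [hc.1 _ h3, zero_mul, map_zero]
      · rw [if_neg h2, map_zero]
  -- step 7
  have hp1 : p1 LA = A := by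
    rw [hAcl]
    unfold p1
    congr 1
    ext p
    constructor
    · rintro ⟨_, ⟨s, hs, rfl⟩, rfl⟩
      exact ⟨s, hs, rfl⟩
    · rintro ⟨s, hs, rfl⟩
      exact ⟨_, ⟨s, hs, rfl⟩, rfl⟩
  have hp2 : p2 LA = A := by
    rw [hAcl]
    unfold p2
    congr 1
    ext p
    constructor
    · rintro ⟨_, ⟨s, hs, rfl⟩, rfl⟩
      exact ⟨s, hs, rfl⟩
    · rintro ⟨s, hs, rfl⟩
      exact ⟨_, ⟨s, hs, rfl⟩, rfl⟩
  have : Finite (MulAut V₀) :=
    Finite.of_injective (fun f : MulAut V₀ => (f : V₀ → V₀)) DFunLike.coe_injective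
  have iA : Fintype (MulAut V₀) := Fintype.ofFinite _
  let T : Set (MulAut V₀ × V₀) := {w | w.1 ∈ E₀ ∧ ∀ s ∈ L, w.1 (a s * w.2 ^ (s.1 : ℕ)) = a s}
  have s7 : ∀ χ ∈ X, starRingEnd ℂ (SL B m LA χ χ) =
      (Fintype.card (B.C A) : ℂ) * Fintype.card (B.C A) / ((ℓ : ℕ) : ℂ) ^ 2 *
        ∑ w, (if w ∈ T then lam B A χ (w.2⁻¹ * w.1 w.2) else 0) := by
    intro χ hχ
    have hc := (hXm χ).1 hχ
    have h1 := hS ℓ M hM hℓ V₀ G E₀ hF B hB n m hPE LA (by rw [hp1]; exact hA)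
      (by rw [hp2]; exact hA) χ (by rw [hp1]; exact hc) χ (by rw [hp2]; exact hc)
    rw [hp1, hp2, hNc] at h1
    have h2 : ((B.S A : ℤ) : ℂ) * ((B.S A : ℤ) : ℂ) = 1 := by
      rcases hB.sg A hA with h | h
      · rw [h]; norm_num
      · rw [h]; norm_num
    rw [h2, mul_one] at h1
    rw [h1, map_mul, map_div₀, map_mul, map_pow]
    simp only [Complex.conj_natCast]
    congr 1
    rw [finsum_mem_def, finsum_eq_sum_of_fintype, map_sum]
    refine Finset.sum_congr rfl fun w _ => ?_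
    rw [Set.indicator_apply]
    have hiff : (w ∈ {w : MulAut V₀ × V₀ | w.1 ∈ E₀ ∧ ∀ s ∈ LA,
        w.1 (s.1 * w.2 ^ s.2.2) = s.2.1}) ↔ w ∈ T := by
      constructor
      · rintro ⟨g1, g2⟩
        refine ⟨g1, fun s hs => ?_⟩
        have g3 := g2 (a s, a s, ((s.1 : ℕ) : ℤ)) ⟨s, hs, rfl⟩
        have g4 : w.1 (a s * w.2 ^ ((s.1 : ℕ) : ℤ)) = a s := g3
        rwa [zpow_natCast] at g4
      · rintro ⟨g1, g2⟩
        refine ⟨g1, ?_⟩
        rintro _ ⟨s, hs, rfl⟩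
        show w.1 (a s * w.2 ^ ((s.1 : ℕ) : ℤ)) = a s
        rw [zpow_natCast]
        exact g2 s hs
    simp only [hiff]
    split_ifs
    · rw [map_mul, Complex.conj_conj, lin_conj (hlam χ hχ), ← (hlam χ hχ).2]
    · rw [map_zero]
  -- step 8
  have s8 : HK B m κ L = u * ∑ w, (if w ∈ T ∧ κ * (w.2⁻¹ * w.1 w.2) = 1 then (1 : ℂ) else 0) := by
    have e1 : ∑ w, (if w ∈ S then fc B A κ (SO.kap w.1 w.2) else 0) =
        ((B.D A : ℕ) : ℂ) / Fintype.card (B.C A) * u *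
          ∑ χ ∈ X, lam B A χ κ * ∑ w, (if w ∈ S then χ (SO.kap w.1 w.2)⁻¹ else 0) := by
      have e2 : ∀ w : G × G, (if w ∈ S then fc B A κ (SO.kap w.1 w.2) else 0) =
          ((B.D A : ℕ) : ℂ) / Fintype.card (B.C A) * u *
            ∑ χ ∈ X, lam B A χ κ * (if w ∈ S then χ (SO.kap w.1 w.2)⁻¹ else 0) := by
        intro w
        split_ifs with hw
        · exact s4 _ (hSk w hw)
        · simp
      simp only [e2]
      rw [← Finset.mul_sum, Finset.sum_comm]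
      congr 1
      refine Finset.sum_congr rfl fun χ _ => ?_
      rw [Finset.mul_sum]
    have e3 : ∑ χ ∈ X, lam B A χ κ * ∑ w, (if w ∈ S then χ (SO.kap w.1 w.2)⁻¹ else 0) =
        (((B.D A : ℕ) : ℂ))⁻¹ * ((Fintype.card (B.C A) : ℂ) * Fintype.card (B.C A) /
          ((ℓ : ℕ) : ℂ) ^ 2) * ∑ w, (if w ∈ T then
            ∑ χ ∈ X, lam B A χ (κ * (w.2⁻¹ * w.1 w.2)) else 0) := by
      have e4 : ∀ χ ∈ X, lam B A χ κ * ∑ w, (if w ∈ S then χ (SO.kap w.1 w.2)⁻¹ else 0) =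
          (((B.D A : ℕ) : ℂ))⁻¹ * ((Fintype.card (B.C A) : ℂ) * Fintype.card (B.C A) /
          ((ℓ : ℕ) : ℂ) ^ 2) * ∑ w, (if w ∈ T then
            lam B A χ (κ * (w.2⁻¹ * w.1 w.2)) else 0) := by
        intro χ hχ
        rw [s5 χ hχ, ← s6 χ hχ, s7 χ hχ]
        have e5 : ∑ w, (if w ∈ T then lam B A χ (κ * (w.2⁻¹ * w.1 w.2)) else 0) =
            lam B A χ κ * ∑ w, (if w ∈ T then lam B A χ (w.2⁻¹ * w.1 w.2) else 0) := by
          rw [Finset.mul_sum]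
          refine Finset.sum_congr rfl fun w _ => ?_
          split_ifs
          · rw [(hlam χ hχ).2]
          · rw [mul_zero]
        rw [e5]
        ring
      rw [Finset.sum_congr rfl e4, ← Finset.mul_sum, Finset.sum_comm]
      congr 1
      refine Finset.sum_congr rfl fun w _ => ?_
      split_ifs
      · rfl
      · simp
    have e6 : ∑ w, (if w ∈ T then ∑ χ ∈ X, lam B A χ (κ * (w.2⁻¹ * w.1 w.2)) else 0) =
        ((ℓ : ℕ) : ℂ) ^ 2 *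
          ∑ w, (if w ∈ T ∧ κ * (w.2⁻¹ * w.1 w.2) = 1 then (1 : ℂ) else 0) := by
      rw [Finset.mul_sum]
      refine Finset.sum_congr rfl fun w _ => ?_
      rw [horth]
      by_cases h1 : w ∈ T
      · by_cases h2 : κ * (w.2⁻¹ * w.1 w.2) = 1
        · rw [if_pos h1, if_pos h2, if_pos ⟨h1, h2⟩, mul_one]
        · rw [if_pos h1, if_neg h2, if_neg (fun h => h2 h.2), mul_zero]
      · rw [if_neg h1, if_neg (fun h => h1 h.1), mul_zero]
    rw [s1, e1, e3, e6]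
    field_simp
  have s9 : ∑ w, (if w ∈ T ∧ κ * (w.2⁻¹ * w.1 w.2) = 1 then (1 : ℂ) else 0) =
      ((N12 E₀ κ L : ℕ) : ℂ) := by
    rw [← ncard_sum (fun w : MulAut V₀ × V₀ => w ∈ T ∧ κ * (w.2⁻¹ * w.1 w.2) = 1)]
    unfold N12
    congr 1
    refine Set.ncard_congr (fun w hw => ((⟨w.1, hw.1.1⟩ : E₀), w.2⁻¹)) ?_ ?_ ?_
    · rintro w ⟨⟨h1, h2⟩, h3⟩
      constructor
      · show w.1 w.2⁻¹ = κ * w.2⁻¹
        have h4 : κ * w.2⁻¹ = (w.1 w.2)⁻¹ := by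
          rw [← mul_assoc] at h3
          exact eq_inv_of_mul_eq_one_left h3
        rw [h4, map_inv]
      · intro s hs
        show w.1 (κ ^ (s.2.1 : ℕ) * s.2.2.1 * (w.2⁻¹ ^ (s.1 : ℕ))⁻¹) = κ ^ (s.2.1 : ℕ) * s.2.2.1
        rw [inv_pow, inv_inv]
        exact h2 s hs
    · rintro ⟨w1, w2⟩ ⟨v1, v2⟩ hw hv h
      have h1 := congrArg Prod.fst h
      have h2 := congrArg Prod.snd h
      have h3 : w1 = v1 := congrArg Subtype.val h1
      have h4 : w2 = v2 := inv_injective h2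
      rw [h3, h4]
    · rintro ⟨⟨τ, hτ⟩, v⟩ ⟨h1, h2⟩
      refine ⟨(τ, v⁻¹), ⟨⟨hτ, fun s hs => ?_⟩, ?_⟩, ?_⟩
      · have h3 := h2 s hs
        have h4 : τ (κ ^ (s.2.1 : ℕ) * s.2.2.1 * (v ^ (s.1 : ℕ))⁻¹) =
          κ ^ (s.2.1 : ℕ) * s.2.2.1 := h3
        show τ (a s * v⁻¹ ^ (s.1 : ℕ)) = a s
        rw [inv_pow]
        exact h4
      · have h3 : τ v = κ * v := h1
        show κ * (v⁻¹⁻¹ * τ v⁻¹) = 1
        rw [map_inv, h3, inv_inv, mul_inv_rev]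
        rw [← mul_assoc v, mul_inv_cancel, one_mul, mul_inv_cancel]
      · refine Prod.ext rfl ?_
        show v⁻¹⁻¹ = v
        rw [inv_inv]
  rw [s8, s9, hu]
  push_cast
  ring

end Pool.Agent.PP.SD.H44W
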